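import Pool.Agent.H93.EN.Targets4
import Pool.Agent.H93.BL.Basic

/-!
# Bright corners: corners with a cold side are cool (module CLE)
-/

set_option autoImplicit false

namespace Pool.Agent.H10.EN

open MeasureTheory Set Metric Filter Topology Pool.Agent.H93.EN
open Pool.Agent.H93.BL hiding T_B1 T_B2 T_B3 T_SB T_SC

theorem sg_sub {ι : Type} (P : Polygon ι) (k : ι) (x y : ℂ) :
    |sg P k x - sg P k y| ≤ dist x y := by
  have h : sg P k x - sg P k y = cr (P.u k) (x - y) := by
    unfold sg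
    rw [← cr_sub_right]
    congr 1
    ring
  rw [h, dist_eq_norm]
  have := abs_cr_le (P.u k) (x - y)
  rwa [P.norm_u, one_mul] at this

/-- near a cold side the mean of the mollification is small -/
theorem core (hcht : T_CHT) (hu0 : T_U0) (hch : T_CH) (harc : T_ARC) {ι : Type} (D : Dat ι)
    (k : ι) (hcold : D.Cold k) (x x' : ℂ) {s c θ c₁ δ t : ℝ}
    (hs : 0 < s) (hc : 0 < c) (hchart : Chart D.P x' (c * s) (some k)) (hx : x ∈ D.P.Ω)
    (hrho : D.rho x = s) (hxx : dist x x' ≤ s * θ) (hθ : 0 < θ) (hc₁ : 0 < c₁)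
    (hsg : c₁ * s < sg D.P k x)
    (hsg' : sg D.P k x' = 0) (hδ : 0 < δ) (hδs : δ ≤ c₁ * s) (hκ : c₁ < D.κ)
    (hsum : θ + c₁ ≤ c / 2) (ht : 2 / c * (θ + c₁) ≤ t) : D.a δ x ≤ t := by
  obtain ⟨C0, hC0, hU0⟩ := hu0
  obtain ⟨hMm, -, -, hb⟩ := hU0 (D.X x) (D.Xb x) δ hδ
  obtain ⟨-, -, -, -, C, hC, hχ⟩ := hch
  obtain ⟨-, -, hpos, hsupp, -, -, -, -, -⟩ := hχ δ hδ
  obtain ⟨hmono, -, -, hsegm, -⟩ := hcht ι D.P
  have ht0 : 0 ≤ t := le_trans (by positivity) ht
  have hM1 : Measurable (Ml (D.X x) δ x) := hMm.of_uncurry_left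
  refine harc (D.P.u k) t (Ml (D.X x) δ x) (D.P.norm_u k) ht0 hM1
    (fun w => ⟨(hb x w).1, (hb x w).2.1⟩) ?_
  intro w hw htw
  have hsθ : s * θ + c₁ * s ≤ c * s / 2 := by nlinarith
  have hxpos : 0 < sg D.P k x := lt_trans (by positivity) hsg
  have hsθ' : 0 < s * θ := by positivity
  have hc₁s : 0 < c₁ * s := by positivity
  have hchx : Chart D.P x (c * s / 2) (some k) := by
    refine hmono x' x _ _ _ hchart ?_ ?_
    · linarith
    · intro j hj
      rw [← Option.some.inj hj]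
      exact hxpos.le
  unfold Ml
  refine integral_eq_zero_of_ae ?_
  filter_upwards [D.own x hx] with y hy
  change chi δ (x - y) * D.X x y w = 0
  by_cases hyd : δ ≤ ‖x - y‖
  · rw [hsupp _ hyd, zero_mul]
  · push Not at hyd
    have hyx : dist y x < δ := by rw [dist_comm, dist_eq_norm]; exact hyd
    have hyb : y ∈ ball x (D.κ * infDist x D.B) := by
      rw [mem_ball]
      have h1 : infDist x D.B = s := hrho
      rw [h1]
      have : c₁ * s < D.κ * s := mul_lt_mul_of_pos_right hκ hs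
      linarith
    have hys : 0 < sg D.P k y := by
      have := (abs_le.mp (sg_sub D.P k y x)).1
      linarith
    have hseg : segment ℝ x y ⊆ D.P.Ω := by
      refine (hsegm x y _ _ hx hchx ?_).mpr ?_
      · rw [mem_ball]
        linarith
      · intro j hj
        rw [← Option.some.inj hj]
        exact hys
    have hyx' : dist y x' < s * θ + c₁ * s := by
      have := dist_triangle y x x'
      linarith
    have hchy : Chart D.P y (c * s / 2) (some k) := by
      refine hmono x' y _ _ _ hchart ?_ ?_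
      · linarith
      · intro j hj
        rw [← Option.some.inj hj]
        exact hys.le
    rw [hy hyb hseg w, hcold y (c * s / 2) w (by positivity) hchy hw hys ?_, mul_zero]
    have h1 := (abs_le.mp (sg_sub D.P k y x')).2
    rw [hsg', sub_zero] at h1
    have h2 : c * s / 2 * (2 / c * (θ + c₁)) = s * θ + c₁ * s := by
      field_simp
    have h3 : c * s / 2 * (2 / c * (θ + c₁)) < c * s / 2 * |cr (D.P.u k) w| :=
      mul_lt_mul_of_pos_left (lt_of_le_of_lt ht htw) (by positivity)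
    linarith

theorem cr_exp (u : ℂ) (hu : ‖u‖ = 1) (θ : ℝ) :
    cr u (Complex.exp ((θ : ℂ) * Complex.I) * u) = Real.sin θ := by
  have h1 : u.re * u.re + u.im * u.im = 1 := by
    have := Complex.sq_norm u
    rw [hu, Complex.normSq_apply] at this
    linarith
  have h2 : (Complex.exp ((θ : ℂ) * Complex.I)).re = Real.cos θ := Complex.exp_ofReal_mul_I_re θ
  have h3 : (Complex.exp ((θ : ℂ) * Complex.I)).im = Real.sin θ := Complex.exp_ofReal_mul_I_im θ
  unfold cr
  rw [Complex.mul_re, Complex.mul_im, h2, h3]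
  linear_combination (Real.sin θ) * h1

theorem exp_sub_one (θ : ℝ) : ‖Complex.exp ((θ : ℂ) * Complex.I) - 1‖ ≤ |θ| := by
  have := Real.norm_exp_I_mul_ofReal_sub_one_le (x := θ)
  rwa [mul_comm, Real.norm_eq_abs] at this

/-- near a vertex, the distance to the set of vertices is the distance to the vertex -/
theorem infDist_VV {ι : Type} [Finite ι] (P : Polygon ι) (b : ℂ) (hb : b ∈ VV P) :
    ∃ s₀ > (0 : ℝ), ∀ s : ℝ, s < s₀ → ∀ x, dist x b = s → s ≤ infDist x (VV P) := by
  have hfin : (VV P).Finite := by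
    have h1 : VV P ⊆ range P.p ∪ range P.q := by
      rintro w ⟨i, h | h⟩
      · exact Or.inl ⟨i, h.symm⟩
      · exact Or.inr ⟨i, h.symm⟩
    exact ((finite_range P.p).union (finite_range P.q)).subset h1
  have hcl : IsClosed (VV P \ {b}) := (hfin.subset sdiff_subset).isClosed
  have hmem : (VV P \ {b})ᶜ ∈ 𝓝 b := hcl.isOpen_compl.mem_nhds (fun h => h.2 rfl)
  obtain ⟨ε, hε, hball⟩ := Metric.mem_nhds_iff.mp hmem
  refine ⟨ε / 2, by positivity, ?_⟩
  intro s hs x hx
  rw [le_infDist ⟨b, hb⟩]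
  intro v hv
  by_cases hvb : v = b
  · rw [hvb, hx]
  · have h1 : ε ≤ dist v b := by
      by_contra h
      push Not at h
      exact hball (mem_ball.mpr h) ⟨hv, hvb⟩
    have h2 := dist_triangle v x b
    rw [dist_comm v x] at h2
    linarith

theorem cle (h1 : T_LSS) (h2 : T_CHT) (h3 : T_ARC) (_h4 : T_CA) (h5 : T_U0) (h6 : T_CH)
    (h7 : T_CA0) (h8 : T_SM) : T_CLE := by
  intro ι _ D r i j α hCor hcold ε hε
  obtain ⟨c, hc, hch⟩ := h1 ι D.P
  have hmono := (h2 ι D.P).1
  have hCor' := hCor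
  obtain ⟨hq, hB, hr, hα, hα2, hui, hri, hrj, hcor⟩ := hCor'
  obtain ⟨s₀, hs₀, hinf⟩ := infDist_VV D.P (D.P.p j) ⟨j, Or.inl rfl⟩
  -- the two cases together
  have hside : ∃ k, D.Cold k ∧ ∀ θ₀ ∈ Ioo 0 α, ∃ θ₁ ∈ Ioo 0 α, ∀ s ∈ Ioo 0 (min r s₀), ∃ x',
      Chart D.P x' (c * s) (some k) ∧ dist (pt D.P j s θ₁) x' ≤ s * θ₀ ∧
      sg D.P k (pt D.P j s θ₁) = s * Real.sin θ₀ ∧ sg D.P k x' = 0 := by
    rcases hcold with hcold | hcold
    · refine ⟨i, hcold, fun θ₀ hθ₀ => ⟨α - θ₀, ⟨by linarith [hθ₀.2], by linarith [hθ₀.1]⟩, ?_⟩⟩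
      intro s hs
      have hsr : s < r := hs.2.trans_le (min_le_left _ _)
      have hss : s < s₀ := hs.2.trans_le (min_le_right _ _)
      have hx'b : D.P.p i + ((D.P.len i - s : ℝ) : ℂ) * D.P.u i =
          D.P.p j - (s : ℂ) * D.P.u i := by
        rw [← hq, D.P.q_eq i]
        push_cast
        ring
      have hpt : pt D.P j s (α - θ₀) =
          D.P.p j - (s : ℂ) * (Complex.exp (((-θ₀ : ℝ) : ℂ) * Complex.I) * D.P.u i) := by
        have h9 : D.P.u i = -(Complex.exp ((α : ℂ) * Complex.I) * D.P.u j) := by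
          have : -D.P.u i = Complex.exp ((α : ℂ) * Complex.I) * D.P.u j := hui
          rw [← this, neg_neg]
        have h10 : Complex.exp (((α - θ₀ : ℝ) : ℂ) * Complex.I) =
            Complex.exp (((-θ₀ : ℝ) : ℂ) * Complex.I) * Complex.exp ((α : ℂ) * Complex.I) := by
          rw [← Complex.exp_add]
          congr 1
          push_cast
          ring
        unfold pt uv
        rw [h10, h9]
        ring
      refine ⟨D.P.p i + ((D.P.len i - s : ℝ) : ℂ) * D.P.u i, ?_, ?_, ?_, ?_⟩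
      · have hmem : D.P.p i + ((D.P.len i - s : ℝ) : ℂ) * D.P.u i ∈
            openSegment ℝ (D.P.p i) (D.P.q i) :=
          (D.P.mem_openSegment_iff i _).mpr ⟨D.P.len i - s, by linarith, by linarith [hs.1], rfl⟩
        have h9 := hch i _ hmem
        have h10 : s ≤ infDist (D.P.p i + ((D.P.len i - s : ℝ) : ℂ) * D.P.u i) (VV D.P) := by
          refine hinf s hss _ ?_
          rw [hx'b, dist_eq_norm, sub_sub_cancel_left, norm_neg, norm_mul, D.P.norm_u,
            Complex.norm_real, Real.norm_eq_abs, abs_of_pos hs.1, mul_one]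
        refine hmono _ _ _ _ _ h9 ?_ ?_
        · rw [dist_self, zero_add]
          exact mul_le_mul_of_nonneg_left h10 hc.le
        · intro l hl
          rw [← Option.some.inj hl]
          exact h9.1
      · rw [hx'b, hpt, dist_eq_norm]
        have h9 : D.P.p j - (s : ℂ) * (Complex.exp (((-θ₀ : ℝ) : ℂ) * Complex.I) * D.P.u i) -
            (D.P.p j - (s : ℂ) * D.P.u i) =
            -((s : ℂ) * ((Complex.exp (((-θ₀ : ℝ) : ℂ) * Complex.I) - 1) * D.P.u i)) := by ring
        rw [h9, norm_neg, norm_mul, norm_mul, D.P.norm_u, Complex.norm_real, Real.norm_eq_abs,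
          abs_of_pos hs.1, mul_one]
        refine mul_le_mul_of_nonneg_left ?_ hs.1.le
        have h10 := exp_sub_one (-θ₀)
        rwa [abs_neg, abs_of_pos hθ₀.1] at h10
      · rw [hpt]
        unfold sg
        have h9 : D.P.p j - (s : ℂ) * (Complex.exp (((-θ₀ : ℝ) : ℂ) * Complex.I) * D.P.u i) -
            D.P.p i = (D.P.len i : ℂ) * D.P.u i -
            (s : ℂ) * (Complex.exp (((-θ₀ : ℝ) : ℂ) * Complex.I) * D.P.u i) := by
          rw [← hq, D.P.q_eq i]
          ring
        rw [h9, cr_sub_right, cr_smul_right, cr_smul_right, cr_self, cr_exp _ (D.P.norm_u i),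
          Real.sin_neg]
        ring
      · unfold sg
        rw [add_sub_cancel_left, cr_smul_right, cr_self, mul_zero]
    · refine ⟨j, hcold, fun θ₀ hθ₀ => ⟨θ₀, hθ₀, ?_⟩⟩
      intro s hs
      have hsr : s < r := hs.2.trans_le (min_le_left _ _)
      have hss : s < s₀ := hs.2.trans_le (min_le_right _ _)
      refine ⟨D.P.p j + (s : ℂ) * D.P.u j, ?_, ?_, ?_, ?_⟩
      · have hmem : D.P.p j + (s : ℂ) * D.P.u j ∈ openSegment ℝ (D.P.p j) (D.P.q j) :=
          (D.P.mem_openSegment_iff j _).mpr ⟨s, hs.1, by linarith, rfl⟩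
        have h9 := hch j _ hmem
        have h10 : s ≤ infDist (D.P.p j + (s : ℂ) * D.P.u j) (VV D.P) := by
          refine hinf s hss _ ?_
          rw [dist_eq_norm, add_sub_cancel_left, norm_mul, D.P.norm_u,
            Complex.norm_real, Real.norm_eq_abs, abs_of_pos hs.1, mul_one]
        refine hmono _ _ _ _ _ h9 ?_ ?_
        · rw [dist_self, zero_add]
          exact mul_le_mul_of_nonneg_left h10 hc.le
        · intro l hl
          rw [← Option.some.inj hl]
          exact h9.1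
      · unfold pt uv
        rw [dist_eq_norm]
        have h9 : D.P.p j + (s : ℂ) * (Complex.exp ((θ₀ : ℂ) * Complex.I) * D.P.u j) -
            (D.P.p j + (s : ℂ) * D.P.u j) =
            (s : ℂ) * ((Complex.exp ((θ₀ : ℂ) * Complex.I) - 1) * D.P.u j) := by ring
        rw [h9, norm_mul, norm_mul, D.P.norm_u, Complex.norm_real, Real.norm_eq_abs,
          abs_of_pos hs.1, mul_one]
        refine mul_le_mul_of_nonneg_left ?_ hs.1.le
        have h10 := exp_sub_one θ₀
        rwa [abs_of_pos hθ₀.1] at h10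
      · unfold sg pt uv
        rw [add_sub_cancel_left, cr_smul_right, cr_exp _ (D.P.norm_u j)]
      · unfold sg
        rw [add_sub_cancel_left, cr_smul_right, cr_self, mul_zero]
  obtain ⟨k, hk, hside⟩ := hside
  -- the choice of the constants
  set θ₀ : ℝ := min (min (α / 2) 1) (min (c / 4) (c * ε / 4)) with hθ₀
  have hθpos : 0 < θ₀ := by
    rw [hθ₀]
    refine lt_min (lt_min (by positivity) one_pos) (lt_min (by positivity) (by positivity))
  have hθα : θ₀ ≤ α / 2 := (min_le_left _ _).trans (min_le_left _ _)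
  have hθ1 : θ₀ ≤ 1 := (min_le_left _ _).trans (min_le_right _ _)
  have hθc : θ₀ ≤ c / 4 := (min_le_right _ _).trans (min_le_left _ _)
  have hθε : θ₀ ≤ c * ε / 4 := (min_le_right _ _).trans (min_le_right _ _)
  have hsin : 0 < Real.sin θ₀ :=
    Real.sin_pos_of_pos_of_lt_pi hθpos (by linarith [Real.pi_gt_three])
  have hsin' : Real.sin θ₀ ≤ θ₀ := Real.sin_le hθpos.le
  set c₁ : ℝ := min (Real.sin θ₀ / 2) (D.κ / 10) with hc₁
  have hc₁pos : 0 < c₁ := lt_min (by positivity) (by have := D.κpos; positivity)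
  have hc₁s : c₁ ≤ Real.sin θ₀ / 2 := min_le_left _ _
  have hc₁κ : c₁ ≤ D.κ / 10 := min_le_right _ _
  have hκ := D.κpos
  obtain ⟨θ₁, hθ₁, hside⟩ := hside θ₀ ⟨hθpos, by linarith⟩
  refine ⟨1, 1, min r s₀, c₁, one_pos, lt_min hr hs₀, hc₁pos, ?_⟩
  intro s hs δ hδ hδs θ hθ
  have hsr : s ∈ Ioo 0 r := ⟨hs.1, hs.2.trans_le (min_le_left _ _)⟩
  obtain ⟨x', hx', hdist, hsg, hsg'⟩ := hside s hs
  obtain ⟨hxΩ, hxr⟩ := hcor s hsr θ₁ hθ₁
  have hmain : D.a δ (pt D.P j s θ₁) ≤ ε := by
    refine core h2 h5 h6 h3 D k hk _ x' hs.1 hc hx' hxΩ hxr hdist hθpos hc₁pos ?_ hsg' hδ hδs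
      (by linarith) (by linarith) ?_
    · rw [hsg, mul_comm]
      exact mul_lt_mul_of_pos_left (by linarith) hs.1
    · have h9 : 2 / c * (θ₀ + c₁) ≤ 2 / c * (c * ε / 2) :=
        mul_le_mul_of_nonneg_left (by linarith) (by positivity)
      have h10 : 2 / c * (c * ε / 2) = ε := by field_simp
      linarith
  have h9δ : 9 * δ < D.κ * s := by
    have h9 : c₁ * s ≤ D.κ / 10 * s := mul_le_mul_of_nonneg_right hc₁κ hs.1.le
    have h10 : 0 < D.κ * s := mul_pos hκ hs.1
    linarith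
  have hca : ∀ m : ℤ, 0 ≤ D.arc j α δ m s := fun m => (h7 ι D r i j α hCor δ hδ s hsr h9δ m).1
  have hdiff := (h7 ι D r i j α hCor δ hδ s hsr h9δ 0).2 θ hθ θ₁ hθ₁
  have hua := (h8 ι D δ hδ).2.2.2.1
  rw [hua, hua, ← Complex.ofReal_sub, Complex.norm_real, Real.norm_eq_abs] at hdiff
  have hsum : D.arc j α δ (0 - 1) s + D.arc j α δ (0 + 1) s ≤
      ∑ m ∈ Finset.Icc (-((1 : ℕ) : ℤ)) ((1 : ℕ) : ℤ), D.arc j α δ m s := by
    have h9 : ({-1, 1} : Finset ℤ) ⊆ Finset.Icc (-((1 : ℕ) : ℤ)) ((1 : ℕ) : ℤ) := by decide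
    have h10 := Finset.sum_le_sum_of_subset_of_nonneg (f := fun m => D.arc j α δ m s) h9
      (fun m _ _ => hca m)
    rw [Finset.sum_pair (by decide)] at h10
    simpa using h10
  have h9 := le_abs_self (D.a δ (pt D.P j s θ) - D.a δ (pt D.P j s θ₁))
  rw [one_mul]
  linarith

end Pool.Agent.H10.EN
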