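import Pool.Agent.H93.EN.Targets4

/-!
# Bright corners: disc integrals of `f0` are locally constant (module FI1)
-/

set_option autoImplicit false

namespace Pool.Agent.H10.EN

open MeasureTheory Set Metric Filter Topology Pool.Agent.H93.EN
open Pool.Agent.H93.BL hiding T_B1 T_B2 T_B3 T_SB T_SC

/-- integrability of bounded measurable functions on sets of finite measure -/
theorem intOn_of_bd {f : ℂ → ℝ} (hf : Measurable f) (h0 : ∀ x, 0 ≤ f x ∧ f x ≤ 1) {S : Set ℂ}
    (hS : volume S < ⊤) : IntegrableOn f S := by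
  have : IsFiniteMeasure (volume.restrict S) := ⟨by rwa [Measure.restrict_apply_univ]⟩
  refine Integrable.of_bound hf.aestronglyMeasurable 1 (Eventually.of_forall fun x => ?_)
  rw [Real.norm_eq_abs, abs_of_nonneg (h0 x).1]
  exact (h0 x).2

theorem vol_ball (c : ℂ) {r : ℝ} (hr : 0 ≤ r) : volume.real (ball c r) = Real.pi * r ^ 2 := by
  rw [Measure.real, Complex.volume_ball, ENNReal.toReal_mul, ENNReal.toReal_pow,
    ENNReal.toReal_ofReal hr]
  change r ^ 2 * Real.pi = _
  ring

theorem vol_cball (c : ℂ) {r : ℝ} (hr : 0 ≤ r) :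
    volume.real (closedBall c r) = Real.pi * r ^ 2 := by
  rw [Measure.real, Complex.volume_closedBall, ENNReal.toReal_mul, ENNReal.toReal_pow,
    ENNReal.toReal_ofReal hr]
  change r ^ 2 * Real.pi = _
  ring

theorem cball_eq (f : ℂ → ℝ) (c : ℂ) {s : ℝ} (hs : 0 < s) :
    ∫ y in closedBall c s, f y = ∫ y in ball c s, f y := by
  refine setIntegral_congr_set ?_
  have h : volume (closedBall c s \ ball c s) = 0 := by
    rw [closedBall_sdiff_ball]
    exact Measure.addHaar_sphere_of_ne_zero volume c hs.ne'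
  refine EventuallyLE.antisymm ?_ (HasSubset.Subset.eventuallyLE ball_subset_closedBall)
  exact ae_le_set.mpr h

theorem psi_le {f : ℂ → ℝ} (hf : Measurable f) (h0 : ∀ x, 0 ≤ f x ∧ f x ≤ 1) (x x' : ℂ)
    {s d : ℝ} (hs : 0 < s) (hd : dist x x' ≤ d) :
    ∫ y in ball x s, f y ≤ (∫ y in ball x' s, f y) + Real.pi * ((s + d) ^ 2 - s ^ 2) := by
  have hd0 : 0 ≤ d := dist_nonneg.trans hd
  have hb : ∀ (c : ℂ) (r : ℝ), volume (ball c r) < ⊤ := fun c r => measure_ball_lt_top
  have h1 : ∫ y in ball x s, f y ≤ ∫ y in ball x' (s + d), f y :=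
    setIntegral_mono_set (intOn_of_bd hf h0 (hb _ _)) (Eventually.of_forall fun y => (h0 y).1)
      (HasSubset.Subset.eventuallyLE (ball_subset_ball' (by linarith)))
  have h0' : ∀ x, 0 ≤ 1 - f x ∧ 1 - f x ≤ 1 := fun x =>
    ⟨by linarith [(h0 x).2], by linarith [(h0 x).1]⟩
  have h2 : ∫ y in ball x' s, (1 - f y) ≤ ∫ y in ball x' (s + d), (1 - f y) :=
    setIntegral_mono_set (intOn_of_bd (measurable_const.sub hf) h0' (hb _ _))
      (Eventually.of_forall fun y => (h0' y).1)
      (HasSubset.Subset.eventuallyLE (ball_subset_ball (by linarith)))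
  have h3 : ∀ r : ℝ, 0 ≤ r → ∫ y in ball x' r, (1 - f y) =
      Real.pi * r ^ 2 - ∫ y in ball x' r, f y := by
    intro r hr
    have h4 : IntegrableOn (fun _ : ℂ => (1 : ℝ)) (ball x' r) := integrableOn_const (hb _ _).ne
    rw [integral_sub h4 (intOn_of_bd hf h0 (hb _ _)), setIntegral_const, vol_ball _ hr]
    simp
  rw [h3 _ hs.le, h3 _ (by linarith)] at h2
  linarith

theorem psi_abs {f : ℂ → ℝ} (hf : Measurable f) (h0 : ∀ x, 0 ≤ f x ∧ f x ≤ 1) (x x' : ℂ)
    {s d : ℝ} (hs : 0 < s) (hd : dist x x' ≤ d) :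
    |(∫ y in ball x s, f y) - ∫ y in ball x' s, f y| ≤ Real.pi * ((s + d) ^ 2 - s ^ 2) := by
  have h1 := psi_le hf h0 x x' hs hd
  have h2 := psi_le hf h0 x' x hs (d := d) (by rw [dist_comm]; exact hd)
  rw [abs_le]
  constructor <;> linarith

theorem tr (H : ℂ → ℝ) (c : ℂ) (s : ℝ) :
    ∫ z in closedBall (0 : ℂ) s, H (c + z) = ∫ y in closedBall c s, H y := by
  rw [← integral_indicator measurableSet_closedBall, ← integral_indicator measurableSet_closedBall,
    ← integral_add_left_eq_self (fun y => (closedBall c s).indicator H y) c]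
  refine integral_congr_ae (Eventually.of_forall fun z => ?_)
  by_cases hz : ‖z‖ ≤ s
  · change (closedBall (0 : ℂ) s).indicator (fun z => H (c + z)) z =
      (closedBall c s).indicator H (c + z)
    rw [indicator_of_mem (by simpa using hz), indicator_of_mem (by simpa using hz)]
  · change (closedBall (0 : ℂ) s).indicator (fun z => H (c + z)) z =
      (closedBall c s).indicator H (c + z)
    rw [indicator_of_notMem (by simpa using hz), indicator_of_notMem (by simpa using hz)]

/-- averages of the mollification over discs -/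
theorem A_near (hch : T_CH) {f : ℂ → ℝ} (hf : Measurable f) (h0 : ∀ x, 0 ≤ f x ∧ f x ≤ 1)
    {δ s : ℝ} (hδ : 0 < δ) (hs : 0 < s) (x : ℂ) :
    |(∫ z in closedBall (0 : ℂ) s, ∫ y, chi δ (x + z - y) * f y) - ∫ y in ball x s, f y| ≤
      Real.pi * ((s + δ) ^ 2 - s ^ 2) := by
  obtain ⟨-, -, -, -, C, hC, hχ⟩ := hch
  obtain ⟨hcd, hcs, hpos, hsupp, hone, -, -, -, -⟩ := hχ δ hδ
  have hχi : Integrable (chi δ) := hcd.continuous.integrable_of_hasCompactSupport hcs
  have hfin : IsFiniteMeasure (volume.restrict (closedBall (0 : ℂ) s)) :=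
    ⟨by rw [Measure.restrict_apply_univ]; exact measure_closedBall_lt_top⟩
  have h1 : ∀ z : ℂ, ∫ y, chi δ (x + z - y) * f y = ∫ w, chi δ w * f (x - w + z) := by
    intro z
    rw [← integral_sub_left_eq_self (fun w => chi δ w * f (x - w + z)) volume (x + z)]
    refine integral_congr_ae (Eventually.of_forall fun y => ?_)
    change chi δ (x + z - y) * f y = chi δ (x + z - y) * f (x - (x + z - y) + z)
    rw [show x - (x + z - y) + z = y by ring]
  have hint : Integrable (Function.uncurry fun (z w : ℂ) => chi δ w * f (x - w + z))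
      ((volume.restrict (closedBall (0 : ℂ) s)).prod volume) := by
    have h2 : Integrable (fun q : ℂ × ℂ => (1 : ℝ) * chi δ q.2)
        ((volume.restrict (closedBall (0 : ℂ) s)).prod volume) :=
      (integrable_const (1 : ℝ)).mul_prod hχi
    refine h2.mono' ?_ (Eventually.of_forall fun q => ?_)
    · refine Measurable.aestronglyMeasurable ?_
      refine Measurable.mul (hcd.continuous.measurable.comp measurable_snd) (hf.comp ?_)
      exact (measurable_const.sub measurable_snd).add measurable_fst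
    · change ‖chi δ q.2 * f (x - q.2 + q.1)‖ ≤ 1 * chi δ q.2
      rw [norm_mul, Real.norm_eq_abs, Real.norm_eq_abs, abs_of_nonneg (hpos _).1,
        abs_of_nonneg (h0 _).1, one_mul]
      exact mul_le_of_le_one_right (hpos _).1 (h0 _).2
  have h3 : ∫ z in closedBall (0 : ℂ) s, ∫ y, chi δ (x + z - y) * f y =
      ∫ w, chi δ w * ∫ y in ball (x - w) s, f y := by
    rw [integral_congr_ae (Eventually.of_forall h1), integral_integral_swap hint]
    refine integral_congr_ae (Eventually.of_forall fun w => ?_)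
    change ∫ z in closedBall (0 : ℂ) s, chi δ w * f (x - w + z) = _
    rw [integral_const_mul, tr, cball_eq _ _ hs]
  have hψm : Integrable (fun w => chi δ w * ∫ y in ball (x - w) s, f y) := by
    have h4 := hint.integral_prod_right
    refine h4.congr (Eventually.of_forall fun w => ?_)
    change ∫ z in closedBall (0 : ℂ) s, chi δ w * f (x - w + z) = _
    rw [integral_const_mul, tr, cball_eq _ _ hs]
  have h5 : (∫ z in closedBall (0 : ℂ) s, ∫ y, chi δ (x + z - y) * f y) - ∫ y in ball x s, f y =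
      ∫ w, chi δ w * ((∫ y in ball (x - w) s, f y) - ∫ y in ball x s, f y) := by
    rw [h3]
    have h6 : ∫ y in ball x s, f y = ∫ w, chi δ w * ∫ y in ball x s, f y := by
      rw [integral_mul_const, hone, one_mul]
    conv_lhs => rw [h6]
    rw [← integral_sub hψm (hχi.mul_const _)]
    refine integral_congr_ae (Eventually.of_forall fun w => ?_)
    change _ = chi δ w * ((∫ y in ball (x - w) s, f y) - ∫ y in ball x s, f y)
    rw [mul_sub]
  rw [h5]
  have h7 : ‖∫ w, chi δ w * ((∫ y in ball (x - w) s, f y) - ∫ y in ball x s, f y)‖ ≤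
      ∫ w, chi δ w * (Real.pi * ((s + δ) ^ 2 - s ^ 2)) := by
    refine norm_integral_le_of_norm_le (hχi.mul_const _) (Eventually.of_forall fun w => ?_)
    rw [norm_mul, Real.norm_eq_abs, Real.norm_eq_abs, abs_of_nonneg (hpos _).1]
    by_cases hw : δ ≤ ‖w‖
    · rw [hsupp w hw, zero_mul, zero_mul]
    · refine mul_le_mul_of_nonneg_left ?_ (hpos _).1
      refine psi_abs hf h0 _ _ hs ?_
      rw [dist_eq_norm]
      push Not at hw
      rw [show x - w - x = -w by ring, norm_neg]
      exact hw.le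
  rw [integral_mul_const, hone, one_mul, Real.norm_eq_abs] at h7
  exact h7

/-- differences of averages over discs -/
theorem diff_le {U : Set ℂ} (hU : IsOpen U) {a : ℂ → ℂ} (ha : ContDiffOn ℝ 2 a U) {G : ℂ → ℝ}
    (hG : ContinuousOn G U)
    (hfd : ∀ x ∈ U, ∀ v : ℂ, ‖fderiv ℝ a x v‖ ≤ ‖v‖ * G x) (x v : ℂ) {s M : ℝ}
    (hs : ∀ t ∈ Icc (0 : ℝ) 1, closedBall (x + (t : ℂ) * v) s ⊆ U)
    (hM : ∀ t ∈ Icc (0 : ℝ) 1, ∫ z in closedBall (0 : ℂ) s, G (x + (t : ℂ) * v + z) ≤ M) :
    ‖∫ z in closedBall (0 : ℂ) s, (a (x + v + z) - a (x + z))‖ ≤ ‖v‖ * M := by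
  have hmem : ∀ t ∈ Icc (0 : ℝ) 1, ∀ z ∈ closedBall (0 : ℂ) s, x + (t : ℂ) * v + z ∈ U := by
    intro t ht z hz
    refine hs t ht ?_
    simpa using hz
  have hcont : ContinuousOn (fun q : ℂ × ℝ => ‖v‖ * G (x + (q.2 : ℂ) * v + q.1))
      (closedBall (0 : ℂ) s ×ˢ Icc (0 : ℝ) 1) := by
    refine continuousOn_const.mul (hG.comp (Continuous.continuousOn (by fun_prop)) ?_)
    intro q hq
    exact hmem q.2 hq.2 q.1 hq.1
  have hint : Integrable (Function.uncurry fun (z : ℂ) (t : ℝ) => ‖v‖ * G (x + (t : ℂ) * v + z))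
      ((volume.restrict (closedBall (0 : ℂ) s)).prod (volume.restrict (Icc (0 : ℝ) 1))) := by
    rw [Measure.prod_restrict]
    exact hcont.integrableOn_compact ((isCompact_closedBall _ _).prod isCompact_Icc)
  have hpt : ∀ z ∈ closedBall (0 : ℂ) s, ‖a (x + v + z) - a (x + z)‖ ≤
      ∫ t in Icc (0 : ℝ) 1, ‖v‖ * G (x + (t : ℂ) * v + z) := by
    intro z hz
    set c : ℝ → ℂ := fun t => x + (t : ℂ) * v + z with hc
    have hcc : Continuous c := by rw [hc]; fun_prop
    have hcd : ∀ t, HasDerivAt c v t := by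
      intro t
      have h1 : HasDerivAt (fun t : ℝ => (t : ℂ) * v) v t := by
        simpa using (Complex.ofRealCLM.hasDerivAt (x := t)).mul_const v
      exact (h1.const_add x).add_const z
    have hcU : ∀ t ∈ Icc (0 : ℝ) 1, c t ∈ U := fun t ht => hmem t ht z hz
    have hfc : ContinuousOn (fun t => fderiv ℝ a (c t) v) (Icc (0 : ℝ) 1) := by
      have h1 : ContinuousOn (fderiv ℝ a) U := ha.continuousOn_fderiv_of_isOpen hU (by norm_num)
      exact (h1.comp hcc.continuousOn hcU).clm_apply continuousOn_const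
    have h2 : ∫ t in (0 : ℝ)..1, fderiv ℝ a (c t) v = a (c 1) - a (c 0) := by
      refine intervalIntegral.integral_eq_sub_of_hasDerivAt (f := fun t => a (c t)) ?_ ?_
      · intro t ht
        rw [uIcc_of_le zero_le_one] at ht
        have h3 : DifferentiableAt ℝ a (c t) :=
          (ha.contDiffAt (hU.mem_nhds (hcU t ht))).differentiableAt (by norm_num)
        exact h3.hasFDerivAt.comp_hasDerivAt t (hcd t)
      · refine ContinuousOn.intervalIntegrable ?_
        rw [uIcc_of_le zero_le_one]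
        exact hfc
    have h4 : ‖∫ t in (0 : ℝ)..1, fderiv ℝ a (c t) v‖ ≤ ∫ t in (0 : ℝ)..1, ‖v‖ * G (c t) := by
      refine intervalIntegral.norm_integral_le_of_norm_le zero_le_one ?_ ?_
      · exact Eventually.of_forall fun t ht => hfd _ (hcU t ⟨ht.1.le, ht.2⟩) v
      · refine ContinuousOn.intervalIntegrable ?_
        rw [uIcc_of_le zero_le_one]
        exact continuousOn_const.mul (hG.comp hcc.continuousOn hcU)
    rw [h2, intervalIntegral.integral_of_le zero_le_one, ← integral_Icc_eq_integral_Ioc] at h4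
    have h5 : c 1 = x + v + z := by rw [hc]; simp
    have h6 : c 0 = x + z := by rw [hc]; simp
    rw [h5, h6] at h4
    exact h4
  calc ‖∫ z in closedBall (0 : ℂ) s, (a (x + v + z) - a (x + z))‖
      ≤ ∫ z in closedBall (0 : ℂ) s, ∫ t in Icc (0 : ℝ) 1, ‖v‖ * G (x + (t : ℂ) * v + z) := by
        refine norm_integral_le_of_norm_le hint.integral_prod_left ?_
        exact (ae_restrict_iff' measurableSet_closedBall).mpr (Eventually.of_forall hpt)
    _ = ∫ t in Icc (0 : ℝ) 1, ∫ z in closedBall (0 : ℂ) s, ‖v‖ * G (x + (t : ℂ) * v + z) :=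
        integral_integral_swap hint
    _ ≤ ∫ t in Icc (0 : ℝ) 1, ‖v‖ * M := by
        refine setIntegral_mono_on hint.integral_prod_right
          (integrableOn_const isCompact_Icc.measure_lt_top.ne) measurableSet_Icc ?_
        intro t ht
        rw [integral_const_mul]
        exact mul_le_mul_of_nonneg_left (hM t ht) (norm_nonneg _)
    _ = ‖v‖ * M := by
        rw [setIntegral_const]
        simp [Measure.real]

/-- norm of the derivative in terms of `h` -/
theorem fd_le (L : ℂ →L[ℝ] ℂ) (hm hp : ℂ) (h1 : L 1 = Complex.I / 2 * (hm - hp))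
    (h2 : L Complex.I = 1 / 2 * (hp + hm)) (v : ℂ) : ‖L v‖ ≤ ‖v‖ * ((‖hm‖ + ‖hp‖) / 2) := by
  have h7 : L v = (v.re : ℂ) * L 1 + (v.im : ℂ) * L Complex.I := by
    have h6 : v = v.re • (1 : ℂ) + v.im • Complex.I := by
      rw [Complex.real_smul, Complex.real_smul, mul_one]
      exact (Complex.re_add_im _).symm
    conv_lhs => rw [h6]
    rw [map_add, map_smul, map_smul, Complex.real_smul, Complex.real_smul]
  have h8 : L v = Complex.I / 2 * (hm * (starRingEnd ℂ) v - hp * v) := by
    rw [h7, h1, h2]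
    have h10 : (starRingEnd ℂ) v = (v.re : ℂ) - (v.im : ℂ) * Complex.I := by
      apply Complex.ext <;> simp
    have h11 : v = (v.re : ℂ) + (v.im : ℂ) * Complex.I := (Complex.re_add_im _).symm
    rw [h10]
    conv_rhs => rw [h11]
    simp only [Complex.add_re, Complex.add_im, Complex.mul_re, Complex.mul_im, Complex.ofReal_re,
      Complex.ofReal_im, Complex.I_re, Complex.I_im, mul_zero, mul_one, sub_zero, add_zero,
      zero_add]
    linear_combination ((hm + hp) / 2 * (v.im : ℂ)) * Complex.I_sq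
  rw [h8, norm_mul, norm_div, Complex.norm_I]
  have h3 := norm_sub_le (hm * (starRingEnd ℂ) v) (hp * v)
  rw [norm_mul, norm_mul, RCLike.norm_conj] at h3
  have h4 : ‖(2 : ℂ)‖ = 2 := by norm_num
  rw [h4]
  nlinarith

theorem young (t : ℝ) {l : ℝ} (hl : 0 < l) : t ≤ l / 2 + t ^ 2 / (2 * l) := by
  have h : l / 2 + t ^ 2 / (2 * l) - t = (t - l) ^ 2 / (2 * l) := by
    field_simp
    ring
  have h2 : 0 ≤ (t - l) ^ 2 / (2 * l) := by positivity
  linarith

theorem fi1 (h1 : T_CVF) (h2 : T_SM) (h3 : T_INT) (h4 : T_CH) : T_FI1 := by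
  intro ι D hF x₀ R hR hball x hx x' hx' s hs
  obtain ⟨hΩm, hΩf, hf0m, hf0, hρm, hρl, hI⟩ := h3 ι D
  have key : ∀ l : ℝ, 0 < l →
      |(∫ y in ball x s, D.f0 y) - ∫ y in ball x' s, D.f0 y| ≤
        2 * (Real.pi * ((s + l) ^ 2 - s ^ 2)) + ‖x' - x‖ * (l * ((Real.pi * s ^ 2 + 1) / 2)) := by
    intro l hl
    obtain ⟨r, hr, δ, hδ, hδr, hh⟩ := hF (l ^ 2) (by positivity) (min l (R / 16))
      (lt_min hl (by linarith))
    have hδl : δ < l := hδ.2.trans_le (min_le_left _ _)
    have hrR : r < R / 16 := hr.2.trans_le (min_le_right _ _)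
    obtain ⟨hopen, -, -, hua, hk⟩ := h2 ι D δ hδ.1
    have hOut : D.Out (8 * r) ⊆ D.OM δ := by
      intro y hy
      refine ⟨hy.1, ?_⟩
      have h5 : D.κ * (8 * r) ≤ D.κ * D.rho y := mul_le_mul_of_nonneg_left hy.2 D.κpos.le
      have h6 : 0 < D.κ * r := mul_pos D.κpos hr.1
      nlinarith [hδ.1]
    have hOutm : MeasurableSet (D.Out (8 * r)) :=
      hΩm.inter (measurableSet_le measurable_const hρm)
    have hb : ball x₀ (3 * R / 2) ⊆ D.Out (8 * r) := by
      intro y hy
      refine ⟨hball (ball_subset_ball (by linarith) hy), ?_⟩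
      have := (h1 ι D x₀ R hR hball y hy).1
      linarith
    have hδκ : δ ∈ Ioo 0 (D.κ * R / 2) := by
      refine ⟨hδ.1, ?_⟩
      have h5 : D.κ * r < D.κ * (R / 16) := mul_lt_mul_of_pos_left hrR D.κpos
      have h6 : 0 < D.κ * R := mul_pos D.κpos hR
      nlinarith
    have hcb : ∀ c ∈ ball x₀ R, closedBall c s ⊆ ball x₀ (3 * R / 2) := by
      intro c hc y hy
      rw [mem_ball] at hc ⊢
      rw [mem_closedBall] at hy
      have := dist_triangle y c x₀
      linarith [hs.2]
    have hIo : ∀ m : ℤ, IntegrableOn (fun x => ‖D.h δ m x‖ ^ 2) (D.Out (8 * r)) := fun m =>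
      ((hI δ hδ.1 _ hOut hOutm).2 m).2.1
    have hIn : ∀ m : ℤ, IntegrableOn (fun x => ‖D.h δ m x‖) (D.Out (8 * r)) := fun m =>
      ((hI δ hδ.1 _ hOut hOutm).2 m).1
    have hseg : ∀ t ∈ Icc (0 : ℝ) 1, x + (t : ℂ) * (x' - x) ∈ ball x₀ R := by
      intro t ht
      have h5 := (convex_ball x₀ R) hx hx' (show 0 ≤ 1 - t by linarith [ht.2]) ht.1 (by ring)
      rw [Complex.real_smul, Complex.real_smul] at h5
      have h6 : x + (t : ℂ) * (x' - x) = ((1 - t : ℝ) : ℂ) * x + (t : ℂ) * x' := by
        push_cast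
        ring
      rw [h6]
      exact h5
    -- the mollified averages
    have hA : ∀ c ∈ ball x₀ R, |(∫ z in closedBall (0 : ℂ) s, D.a δ (c + z)) -
        ∫ y in ball c s, D.f0 y| ≤ Real.pi * ((s + δ) ^ 2 - s ^ 2) := by
      intro c hc
      have h5 := A_near h4 hf0m hf0 hδ.1 hs.1 c
      have h6 : ∫ z in closedBall (0 : ℂ) s, D.a δ (c + z) =
          ∫ z in closedBall (0 : ℂ) s, ∫ y, chi δ (c + z - y) * D.f0 y := by
        refine setIntegral_congr_fun measurableSet_closedBall ?_
        intro z hz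
        refine (h1 ι D x₀ R hR hball (c + z) ?_).2 δ hδκ
        refine hcb c hc ?_
        simpa using hz
      rw [h6]
      exact h5
    have hG : ContinuousOn (fun x => (‖D.h δ (0 - 1) x‖ + ‖D.h δ (0 + 1) x‖) / 2) (D.OM δ) :=
      (((hk (0 - 1)).2.1.norm).add ((hk (0 + 1)).2.1.norm)).div_const _
    have hD := diff_le hopen (hk 0).1 hG (fun y hy v => fd_le _ _ _ ((hk 0).2.2.2 y hy).1
      ((hk 0).2.2.2 y hy).2 v) x (x' - x) (s := s) (M := l * ((Real.pi * s ^ 2 + 1) / 2))
      (fun t ht => (hcb _ (hseg t ht)).trans (hb.trans hOut)) ?_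
    · have h5 : ∀ c ∈ ball x₀ R, IntegrableOn (fun z => D.u δ 0 (c + z)) (closedBall (0 : ℂ) s) := by
        intro c hc
        have h6 : ContinuousOn (fun z => D.u δ 0 (c + z)) (closedBall (0 : ℂ) s) := by
          refine (hk 0).1.continuousOn.comp (Continuous.continuousOn (by fun_prop)) ?_
          intro z hz
          refine hOut (hb (hcb c hc ?_))
          simpa using hz
        exact h6.integrableOn_compact (isCompact_closedBall _ _)
      have h7 : ∀ c ∈ ball x₀ R, ∫ z in closedBall (0 : ℂ) s, D.u δ 0 (c + z) =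
          ((∫ z in closedBall (0 : ℂ) s, D.a δ (c + z) : ℝ) : ℂ) := by
        intro c hc
        rw [← integral_complex_ofReal]
        refine integral_congr_ae (Eventually.of_forall fun z => ?_)
        exact hua _
      have h8 : x + (x' - x) = x' := by ring
      rw [h8, integral_sub (h5 x' hx') (h5 x hx), h7 x' hx', h7 x hx, ← Complex.ofReal_sub,
        Complex.norm_real, Real.norm_eq_abs] at hD
      have h9 := hA x hx
      have h10 := hA x' hx'
      have h11 : Real.pi * ((s + δ) ^ 2 - s ^ 2) ≤ Real.pi * ((s + l) ^ 2 - s ^ 2) := by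
        refine mul_le_mul_of_nonneg_left ?_ Real.pi_pos.le
        have := hs.1
        have := hδ.1
        nlinarith
      rw [abs_le] at h9 h10 hD ⊢
      constructor <;> linarith [h9.1, h9.2, h10.1, h10.2, hD.1, hD.2]
    · intro t ht
      rw [tr (fun x => (‖D.h δ (0 - 1) x‖ + ‖D.h δ (0 + 1) x‖) / 2)]
      set c := x + (t : ℂ) * (x' - x) with hc
      have hsub : closedBall c s ⊆ D.Out (8 * r) := (hcb _ (hseg t ht)).trans hb
      have h6 : ∀ m : ℤ, ∫ y in closedBall c s, ‖D.h δ m y‖ ^ 2 ≤ l ^ 2 := by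
        intro m
        refine le_trans ?_ (hh m)
        exact setIntegral_mono_set (hIo m) (Eventually.of_forall fun y => by positivity)
          (HasSubset.Subset.eventuallyLE hsub)
      have hcI : ∀ a : ℝ, IntegrableOn (fun _ : ℂ => a) (closedBall c s) := fun a =>
        integrableOn_const measure_closedBall_lt_top.ne
      have h7 : ∀ m : ℤ, ∫ y in closedBall c s, ‖D.h δ m y‖ ≤
          Real.pi * s ^ 2 * (l / 2) + l / 2 := by
        intro m
        have h8 : ∫ y in closedBall c s, ‖D.h δ m y‖ ≤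
            ∫ y in closedBall c s, (l / 2 + ‖D.h δ m y‖ ^ 2 / (2 * l)) := by
          refine setIntegral_mono ((hIn m).mono_set hsub)
            ((hcI _).add (((hIo m).mono_set hsub).div_const _)) ?_
          intro y
          exact young _ hl
        rw [integral_add (hcI _) (((hIo m).mono_set hsub).div_const _), setIntegral_const,
          vol_cball _ hs.1.le, integral_div, smul_eq_mul] at h8
        have h9 : (∫ y in closedBall c s, ‖D.h δ m y‖ ^ 2) / (2 * l) ≤ l / 2 := by
          rw [div_le_iff₀ (by positivity)]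
          have := h6 m
          nlinarith
        linarith
      rw [integral_div, integral_add ((hIn _).mono_set hsub) ((hIn _).mono_set hsub)]
      have h10 := h7 (0 - 1)
      have h11 := h7 (0 + 1)
      linarith
  have hlim : Tendsto (fun l : ℝ => 2 * (Real.pi * ((s + l) ^ 2 - s ^ 2)) +
      ‖x' - x‖ * (l * ((Real.pi * s ^ 2 + 1) / 2))) (𝓝[>] 0) (𝓝 0) := by
    have h5 : Continuous (fun l : ℝ => 2 * (Real.pi * ((s + l) ^ 2 - s ^ 2)) +
      ‖x' - x‖ * (l * ((Real.pi * s ^ 2 + 1) / 2))) := by fun_prop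
    have h6 := (h5.tendsto 0).mono_left (nhdsWithin_le_nhds (s := Ioi 0))
    simpa using h6
  have h5 : |(∫ y in ball x s, D.f0 y) - ∫ y in ball x' s, D.f0 y| ≤ 0 :=
    ge_of_tendsto hlim (by
      filter_upwards [self_mem_nhdsWithin] with l hl
      exact key l hl)
  have h6 := abs_nonpos_iff.mp h5
  linarith

end Pool.Agent.H10.EN
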